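import Pool.Agent.H27.Alpha2

namespace Pool.Agent.Results.MP_afe93a_an.Euclid
open Pool.Agent.H27.AlphaDef Pool.Agent.H27.Alpha2

theorem result (n : ℕ) :
    (Odd n → alpha (EuclideanSpace ℂ (Fin n)) = (n + 1) / 2) ∧
    (Even n → √(n * (n + 2)) / 2 ≤ alpha (EuclideanSpace ℂ (Fin n)) ∧
      alpha (EuclideanSpace ℂ (Fin n)) ≤ (n + 1) / 2) ∧
    (2 < n → alpha (EuclideanSpace ℂ (Fin n)) < n / √2) := by
  refine ⟨fun ⟨r, h⟩ => (a2 n).1.antisymm (le_trans (Real.le_sqrt_of_sq_le ?_)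
    ((a2 n).2 r (by omega))), fun ⟨r, h⟩ => ⟨le_trans ?_ ((a2 n).2 r (by omega)), (a2 n).1⟩,
    fun h => (a2 n).1.trans_lt ?_⟩
  · subst h; push_cast; nlinarith
  · subst h
    refine Real.le_sqrt_of_sq_le ?_
    rw [div_pow, Real.sq_sqrt (by positivity)]
    push_cast; nlinarith
  · have a : (3 : ℝ) ≤ n := by exact_mod_cast h
    have b : √2 < 3 / 2 := (Real.sqrt_lt' (by norm_num)).2 (by norm_num)
    rw [lt_div_iff₀ (by positivity)]
    nlinarith

end Pool.Agent.Results.MP_afe93a_an.Euclid
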