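import Pool.Agent.H27.Alpha2

namespace Pool.Agent.Results.MP_afe93a_an.SupNorm
open Pool.Agent.H27.AlphaDef Pool.Agent.H27.Alpha2

theorem result (n : ℕ) (hn : 0 < n) :
    √(n / 2) ≤ alpha (Fin n → ℂ) ∧ alpha (Fin n → ℂ) ≤ n / √(2 * n - 1) := ai hn

end Pool.Agent.Results.MP_afe93a_an.SupNorm
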